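import Pool.Agent.H11ST.Defs
import Pool.Agent.H11ST.Low
import Pool.Agent.H11ST.Main
import Pool.Agent.Helper27.ST.Pat
import Pool.Agent.Helper27.ST.TowerN
import Pool.Agent.Helper49.ST.Upper
import Pool.Agent.Helper73.ST.Graph
import Pool.Agent.Helper94.ST.EX
import Pool.Agent.Helper94.ST.Hull
import Pool.Agent.Helper94.PU.All

/-!
# The number of branching points in a concentric smaller ball: small `t`, and the order of growth
-/

namespace Pool.Agent.Results.MP_665203_co.GrowthOrder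

open H11ST

/-- The growth function: `1 + log (1 + log (1 / (1 - t)))` in the plane and
`(1 / (1 - t)) ^ ((d - 1) / 2)` in dimension `d ≥ 3`. -/
noncomputable def growth (d : ℕ) (t : ℝ) : ℝ :=
  if d = 2 then 1 + Real.log (1 + Real.log (1 / (1 - t)))
  else (1 / (1 - t)) ^ (((d : ℝ) - 1) / 2)

/-- For every `d ≥ 2` we have `N_d(t) = 1` for all small `t > 0`, and `N_d(t)` is finite and of exact
order `growth d t` for all `0 < t < 1`; the same holds for the larger class of locally admissible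
configurations. -/
theorem result :
    ∀ d : ℕ, 2 ≤ d → ∃ t₀ c C : ℝ, 0 < t₀ ∧ 0 < c ∧
      (∀ t : ℝ, 0 < t → t ≤ t₀ → N d t = 1 ∧ Nloc d t = 1) ∧
      ∀ t : ℝ, 0 < t → t < 1 → ∃ n m : ℕ,
        N d t = n ∧ Nloc d t = m ∧
        c * growth d t ≤ n ∧ n ≤ m ∧ (m : ℝ) ≤ C * growth d t := by
  intro d hd
  obtain ⟨t₀, ht₀, hsmall⟩ := small_general (d := d) (by omega)
  have h1 : ∀ t : ℝ, 0 < t → t ≤ t₀ → N d t = 1 ∧ Nloc d t = 1 := by
    intro t h0 h1
    have hu := hsmall t h0 h1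
    have hl := one_le_N hd h0
    exact ⟨le_antisymm ((N_le_Nloc d t).trans (by exact_mod_cast hu)) hl,
      le_antisymm (by exact_mod_cast hu) (hl.trans (N_le_Nloc d t))⟩
  suffices h2 : ∃ c C : ℝ, 0 < c ∧ ∀ t : ℝ, 0 < t → t < 1 → ∃ n m : ℕ,
      N d t = n ∧ Nloc d t = m ∧
      c * growth d t ≤ n ∧ n ≤ m ∧ (m : ℝ) ≤ C * growth d t by
    obtain ⟨c, C, hc, h3⟩ := h2
    exact ⟨t₀, c, C, ht₀, hc, h1, h3⟩
  have fin : ∀ t (m : ℕ), Nloc d t = m → ∃ n : ℕ, N d t = n ∧ n ≤ m := by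
    intro t m hm
    have h2 : N d t ≤ (m : ℕ∞) := (N_le_Nloc d t).trans hm.le
    obtain ⟨n, hn⟩ := ENat.ne_top_iff_exists.1 (ne_top_of_le_ne_top (ENat.natCast_ne_top m) h2)
    refine ⟨n, hn.symm, ?_⟩
    rw [← hn] at h2
    exact_mod_cast h2
  rcases Nat.lt_or_ge d 3 with h3 | h3
  · obtain rfl : d = 2 := by omega
    obtain ⟨C, _, hC⟩ := PU.plane_upper
    obtain ⟨c, hc, hlow⟩ := Tower.loglog_lower (d := 2) le_rfl
    refine ⟨c, C, hc, fun t h0 h1 => ?_⟩
    obtain ⟨m, hm, hmC⟩ := hC t h0 h1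
    obtain ⟨n, hn, hnm⟩ := fin t m hm
    obtain ⟨k, hk, hck⟩ := hlow t h0 h1
    refine ⟨n, m, hn, hm, ?_, hnm, ?_⟩
    · rw [growth, if_pos rfl]
      rw [hn] at hk
      have hkn : k ≤ n := by exact_mod_cast hk
      exact hck.trans (by exact_mod_cast hkn)
    · rw [growth, if_pos rfl]
      exact hmC
  · obtain ⟨C, _, hC⟩ := upper d h3
    obtain ⟨c, hc, hlow⟩ := Low.lower h3 (st_ex d) (st_gr d) (hull d (by omega)) (Pat.pat d h3)
    refine ⟨c, C, hc, fun t h0 h1 => ?_⟩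
    obtain ⟨m, hm, hmC⟩ := hC t h0 h1
    obtain ⟨n, hn, hnm⟩ := fin t m hm
    have hg : growth d t = 1 / (1 - t) ^ (((d : ℝ) - 1) / 2) := by
      rw [growth, if_neg (by omega), Real.div_rpow zero_le_one (by linarith), Real.one_rpow]
    refine ⟨n, m, hn, hm, ?_, hnm, ?_⟩
    · rw [hg, mul_one_div]
      exact hlow t h0 h1 n hn.le
    · rw [hg, mul_one_div]
      exact hmC

end Pool.Agent.Results.MP_665203_co.GrowthOrder
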