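import Pool.Agent.H11ST.Defs
import Pool.Agent.H11ST.Main
import Pool.Agent.Helper11.LX.All
import Pool.Agent.Helper11.S3.All
import Pool.Agent.Helper27.TET.Tet
import Pool.Agent.Helper27.PRI.Fin
import Pool.Agent.Helper94.LG.All

/-!
# The number of branching points in a concentric smaller ball in dimensions `d ≥ 3`
-/

namespace Pool.Agent.Results.MP_665203_co.HighDimension

open H11ST

/-- For fixed `t` in `[1/2, 1)` the number `N_d(t)` grows at least exponentially with the dimension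
`d`, and not faster than `exp (C d log d)`. In every dimension `d ≥ 3` there can be two branching
points if `t > (√3 - √2) / 3` and four if `t > 0.413`, and in dimension `3` there are at most
`⌊67 / (4 (1 - t))⌋ - 2`, so `4 ≤ N_3(1/2) ≤ 31`. -/
theorem result :
    (∃ a C : ℝ, 0 < a ∧ ∀ d : ℕ, 2 ≤ d → ∀ t : ℝ, 1 / 2 ≤ t → t < 1 → ∃ n m : ℕ,
      N d t = n ∧ Nloc d t = m ∧
      Real.exp (a * d) ≤ n ∧ (d : ℝ) / 50 ≤ n ∧ n ≤ m ∧
      (m : ℝ) ≤ (C * d / (1 - t)) ^ (((d : ℝ) + 1) / 2)) ∧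
    (∀ d : ℕ, 3 ≤ d → ∀ t : ℝ,
      ((√3 - √2) / 3 < t → 2 ≤ N d t) ∧ (413 / 1000 < t → 4 ≤ N d t)) ∧
    ∀ t : ℝ, 0 < t → t < 1 →
      N 3 t ≤ Nloc 3 t ∧ Nloc 3 t ≤ ((⌊67 / (4 * (1 - t))⌋₊ - 2 : ℕ) : ℕ∞) := by
  refine ⟨?_, fun d hd t => ⟨fun ht => TET27.two_le_N_tet hd ht,
    PRI27.four_le_N_prism d hd t⟩, fun t h0 h1 => ⟨N_le_Nloc 3 t, S3.upper3 h0 h1⟩⟩
  obtain ⟨a, ha, hlow⟩ := LX.lower11
  obtain ⟨C, _, hupp⟩ := LX.upp
  refine ⟨a, C, ha, fun d hd t ht ht1 => ?_⟩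
  obtain ⟨m, hm, hmC⟩ := hupp d hd t (by linarith) ht1
  have h2 : N d t ≤ (m : ℕ∞) := (N_le_Nloc d t).trans hm.le
  obtain ⟨n, hn⟩ := ENat.ne_top_iff_exists.1 (ne_top_of_le_ne_top (ENat.natCast_ne_top m) h2)
  refine ⟨n, m, hn.symm, hm, ?_, ?_, ?_, hmC⟩
  · obtain ⟨k, hk, hkN⟩ := hlow d hd t ht
    rw [← hn] at hkN
    have : k ≤ n := by exact_mod_cast hkN
    exact hk.trans (by exact_mod_cast this)
  · have h3 := LG.final d hd t ht
    rw [← hn] at h3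
    have h4 : (d + 49) / 50 ≤ n := by exact_mod_cast h3
    have h5 : d ≤ 50 * n := by omega
    rw [div_le_iff₀ (by norm_num)]
    have : (d : ℝ) ≤ ((50 * n : ℕ) : ℝ) := by exact_mod_cast h5
    push_cast at this
    linarith
  · rw [← hn] at h2
    exact_mod_cast h2

end Pool.Agent.Results.MP_665203_co.HighDimension
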