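import Pool.Agent.H11ST.Defs
import Pool.Agent.H11ST.Square
import Pool.Agent.H11ST.Asm
import Pool.Agent.Helper73.ST.Core
import Pool.Agent.Helper94.ST.Flux
import Pool.Agent.Helper27.ST.Ph
import Pool.Agent.Helper94.P5.Cert
import Pool.Agent.Helper33.P5.Tree
import Pool.Agent.Helper33.P5.Fin
import Pool.Agent.Helper33.P5.Fin6

/-!
# Bounds for the number of branching points in a concentric smaller disc in the plane
-/

namespace Pool.Agent.Results.MP_665203_co.PlaneBound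

open H11ST

/-- In the plane `N_2(t) ≤ ⌊2π/√(1 - t²)⌋ - 2` for all `0 < t < 1`; for `t > 1/2` we have
`2 ≤ N_2(t)`, with `3 ≤ N_2(t)` for `t ≥ 0.585` and `4 ≤ N_2(t)` for `t ≥ 0.724`, and
`N_2(t) ≤ 3, 4, 5, 6` for `1/2 < t ≤ 0.503, 0.635, 0.72, 0.778`.  The upper bounds also hold for the larger class of locally
admissible configurations. -/
theorem result :
    ∀ t : ℝ, 0 < t → t < 1 →
      N 2 t ≤ Nloc 2 t ∧
      Nloc 2 t ≤ ((⌊2 * Real.pi / √(1 - t ^ 2)⌋₊ - 2 : ℕ) : ℕ∞) ∧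
      (1 / 2 < t → 2 ≤ N 2 t ∧
        (585 / 1000 ≤ t → 3 ≤ N 2 t) ∧
        (724 / 1000 ≤ t → 4 ≤ N 2 t) ∧
        (t ≤ 503 / 1000 → Nloc 2 t ≤ 3) ∧
        (t ≤ 635 / 1000 → Nloc 2 t ≤ 4) ∧
        (t ≤ 72 / 100 → Nloc 2 t ≤ 5) ∧
        (t ≤ 778 / 1000 → Nloc 2 t ≤ 6)) := by
  have hgi : ST_GI 2 := gi 2 (Pool.Agent.Helper73.ST.core 2)
  have hfl : ST_FLUX := flux (Pool.Agent.Helper73.ST.core 2)
  intro t h0 h1
  refine ⟨N_le_Nloc 2 t, Nloc_plane2 hgi h0 h1, fun ht => ⟨?_, P5.st_FIN P5.low P5.st_TREE 2 le_rfl t,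
    P6.st_FIN6 2 le_rfl t, ?_, ?_, ?_, ?_⟩⟩
  · refine two_le_N' le_rfl ?_
    rw [kap]
    have h3 : √3 / 3 ≥ 1 / 2 := by
      have : (1.5 : ℝ) ≤ √3 := Real.le_sqrt' (by norm_num) |>.2 (by norm_num)
      linarith
    have h2 : (1.4 : ℝ) ≤ √2 := Real.le_sqrt' (by norm_num) |>.2 (by norm_num)
    nlinarith
  · intro h2
    exact_mod_cast Nloc_of_PH hgi hfl (k := 4) (by norm_num) Ph.ph_4a h0 (by linarith) (by linarith)
  · intro h2
    exact_mod_cast Nloc_of_PH hgi hfl (k := 5) (by norm_num) Ph.ph_5a h0 (by linarith) (by linarith)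
  · intro h2
    exact_mod_cast Nloc_of_PH hgi hfl (k := 6) (by norm_num) Ph.ph_6a h0 (by linarith) (by linarith)
  · intro h2
    exact_mod_cast Nloc_of_PH hgi hfl (k := 7) (by norm_num) Ph.ph_7a h0 (by linarith) (by linarith)

end Pool.Agent.Results.MP_665203_co.PlaneBound
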