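import Pool.Agent.H11ST.Defs
import Pool.Agent.H11ST.Square
import Pool.Agent.Helper11.NH.All
import Pool.Agent.Helper11.KS.All

/-!
# The number of branching points in a concentric smaller disc in the plane: exact values up to `1/2`
-/

namespace Pool.Agent.Results.MP_665203_co.PlaneValues

open H11ST

/-- In the plane `N_2(t) = 1` for `0 < t ≤ (1 - √3/3)/√2` and `N_2(t) = 2` for
`(1 - √3/3)/√2 < t ≤ 1/2`; in particular `N_2(1/2) = 2`. The same holds for the larger class of
locally admissible configurations. -/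
theorem result :
    (∀ t : ℝ, 0 < t → t ≤ (1 - √3 / 3) / √2 → N 2 t = 1 ∧ Nloc 2 t = 1) ∧
    (∀ t : ℝ, (1 - √3 / 3) / √2 < t → t ≤ 1 / 2 → N 2 t = 2 ∧ Nloc 2 t = 2) := by
  refine ⟨?_, ?_⟩
  · intro t h0 h1
    have hu : Nloc 2 t ≤ 1 := KS.nloc_one_of KS.noTwo_kap h1
    have hl := one_le_N (d := 2) le_rfl h0
    exact ⟨le_antisymm ((N_le_Nloc 2 t).trans hu) hl,
      le_antisymm hu (hl.trans (N_le_Nloc 2 t))⟩
  · intro t h0 h1
    have h3 : √3 ≤ 2 := by
      rw [Real.sqrt_le_left (by norm_num)]; norm_num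
    have hpos : 0 < t := lt_trans (div_pos (by linarith) (by positivity)) h0
    have hu : Nloc 2 t ≤ 2 := NH.nloc_half hpos h1
    have hl : 2 ≤ N 2 t := by
      refine two_le_N' le_rfl ?_
      rw [kap]
      exact (div_lt_iff₀ (by positivity)).1 h0
    exact ⟨le_antisymm ((N_le_Nloc 2 t).trans hu) hl,
      le_antisymm hu (hl.trans (N_le_Nloc 2 t))⟩

end Pool.Agent.Results.MP_665203_co.PlaneValues
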